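import Mathlib

/-! Hyperbolic uniform disk graphs and the layered tree-independence number. -/

namespace Pool.Agent.P.MP_49eb30_co

variable {V : Type}

/-- `c` places the vertices of `G` in the hyperbolic plane (upper half plane model, curvature
`-1`) so that two different vertices are adjacent exactly when the closed disks of radius `r`
around them meet, that is, when the centres are at distance at most `2 r`. -/
def IsDiskRep (G : SimpleGraph V) (r : ℝ) (c : V → UpperHalfPlane) : Prop :=
  ∀ u v, G.Adj u v ↔ u ≠ v ∧ dist (c u) (c v) ≤ 2 * r

/-- `(T, X)` is a tree decomposition of `G`: `T` is a finite tree, every edge lies in a bag, and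
the nodes whose bag holds a given vertex induce a nonempty connected subgraph of `T`. -/
def IsTreeDec (G : SimpleGraph V) {m : ℕ} (T : SimpleGraph (Fin m)) (X : Fin m → Set V) : Prop :=
  T.IsTree ∧ (∀ u v, G.Adj u v → ∃ t, u ∈ X t ∧ v ∈ X t) ∧
    ∀ v, (T.induce {t | v ∈ X t}).Connected

/-- `l v` is the index of the layer of `v`: the ends of an edge lie in the same layer or in
consecutive layers. -/
def IsLayering (G : SimpleGraph V) (l : V → ℕ) : Prop :=
  ∀ u v, G.Adj u v → l u ≤ l v + 1

/-- The layered tree-independence number: the least `k` such that for some tree decomposition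
and some layering every intersection of a bag with a layer has independence number at most
`k`. -/
noncomputable def ltreeAlpha (G : SimpleGraph V) : ℕ :=
  sInf {k | ∃ (m : ℕ) (T : SimpleGraph (Fin m)) (X : Fin m → Set V) (l : V → ℕ),
    IsTreeDec G T X ∧ IsLayering G l ∧
      ∀ t i, (G.induce (X t ∩ {v | l v = i})).indepNum ≤ k}

end Pool.Agent.P.MP_49eb30_co
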