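import Pool.Agent.P.MP_49eb30_co.Up

/-! The lower bound: geometric height classes, the bramble of their dense subsets, and a greedy
independent set. -/

namespace Pool.Agent.P.MP_49eb30_co

open SimpleGraph Real Relation

variable {V : Type}

theorem geom_nine (j : ℕ) : ∑ i ∈ Finset.range j, 9 * 10 ^ i + 1 = 10 ^ j := by
  induction j with
  | zero => rfl
  | succ j ih => rw [Finset.sum_range_succ, pow_succ]; omega

theorem hundred (i : ℕ) : 100 ^ i = 10 ^ (i + i) := by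
  rw [← two_mul, pow_mul]; rfl

theorem greedy (a : ℕ → ℕ) (j : ℕ) : ∃ f : ℕ → ℕ, ∀ i, i < j →
    (a i * 100 ^ i ≤ f i ∧ f i < (a i + 1) * 100 ^ i) ∧
      ∀ i', i' < i → f i + 4 * 10 ^ (i' + i) < f i' ∨ f i' + 4 * 10 ^ (i' + i) < f i := by
  induction j with
  | zero => exact ⟨fun _ => 0, fun i hi => absurd hi (Nat.not_lt_zero i)⟩
  | succ j ih =>
    obtain ⟨f, hf⟩ := ih
    have h1 : ((Finset.range j).biUnion fun i =>
        Finset.Icc (f i - 4 * 10 ^ (i + j)) (f i + 4 * 10 ^ (i + j))).card <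
        (Finset.Ico (a j * 100 ^ j) ((a j + 1) * 100 ^ j)).card := by
      refine Finset.card_biUnion_le.trans_lt ?_
      have h2 : ∑ i ∈ Finset.range j,
          (Finset.Icc (f i - 4 * 10 ^ (i + j)) (f i + 4 * 10 ^ (i + j))).card ≤
          ∑ i ∈ Finset.range j, 9 * 10 ^ i * 10 ^ j := by
        refine Finset.sum_le_sum fun i _ => ?_
        have : 0 < 10 ^ (i + j) := by positivity
        rw [Nat.card_Icc, mul_assoc, ← pow_add]
        omega
      refine h2.trans_lt ?_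
      rw [← Finset.sum_mul, Nat.card_Ico, add_mul, one_mul, Nat.add_sub_cancel_left, hundred,
        pow_add]
      exact Nat.mul_lt_mul_of_pos_right (by have := geom_nine j; omega) (by positivity)
    obtain ⟨m, hm, hm'⟩ := Finset.exists_mem_notMem_of_card_lt_card h1
    refine ⟨Function.update f j m, fun i hi => ?_⟩
    rcases Nat.lt_succ_iff_lt_or_eq.1 hi with h | rfl
    · rw [Function.update_of_ne h.ne]
      refine ⟨(hf i h).1, fun i' hi' => ?_⟩
      rw [Function.update_of_ne (hi'.trans h).ne]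
      exact (hf i h).2 i' hi'
    · rw [Function.update_self]
      refine ⟨Finset.mem_Ico.1 hm, fun i' hi' => ?_⟩
      rw [Function.update_of_ne hi'.ne]
      simp only [Finset.mem_biUnion, Finset.mem_range, Finset.mem_Icc, not_exists, not_and] at hm'
      have := hm' i' hi'
      omega

/-- the combinatorial model: `φ i m` is the `m`-th point of the `i`-th class -/
structure Model (G : SimpleGraph V) (k : ℕ) (φ : ℕ → ℕ → V) : Prop where
  near : ∀ i < k, ∀ j < k, ∀ m < 100 ^ k, ∀ m' < 100 ^ k, m ≤ m' + 2 * 10 ^ (i + j) →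
    m' ≤ m + 2 * 10 ^ (i + j) → φ i m = φ j m' ∨ G.Adj (φ i m) (φ j m')
  far : ∀ i < k, ∀ j < k, ∀ m < 100 ^ k, ∀ m' < 100 ^ k, G.Adj (φ i m) (φ j m') →
    m ≤ m' + 4 * 10 ^ (i + j)
  inj : ∀ i < k, ∀ j < k, ∀ m < 100 ^ k, ∀ m' < 100 ^ k, φ i m = φ j m' → i = j

theorem block_le {i k m : ℕ} (hi : i ≤ k) (hm : m < 100 ^ k) :
    (m / 100 ^ i + 1) * 100 ^ i ≤ 100 ^ k := by
  obtain ⟨d, rfl⟩ := Nat.exists_eq_add_of_le hi
  rw [pow_add, mul_comm (100 ^ i)] at hm ⊢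
  exact Nat.mul_le_mul_right _ ((Nat.div_lt_iff_lt_mul (by positivity)).2 hm)

theorem Model.conn {G : SimpleGraph V} {k : ℕ} {φ : ℕ → ℕ → V} (h : Model G k φ) {i : ℕ}
    (hi : i < k) {X : Set V} (hX : ∀ a, (a + 1) * 100 ^ i ≤ 100 ^ k →
      ∃ m, a * 100 ^ i ≤ m ∧ m < (a + 1) * 100 ^ i ∧ φ i m ∉ X) :
    Conn G {v | v ∉ X ∧ ∃ m < 100 ^ k, φ i m = v} := by
  set S := {v | v ∉ X ∧ ∃ m < 100 ^ k, φ i m = v} with hS
  have step : ∀ m < 100 ^ k, ∀ m' < 100 ^ k, φ i m' ∉ X → m ≤ m' + 2 * 100 ^ i →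
      m' ≤ m + 2 * 100 ^ i → ReflTransGen (fun a b => b ∈ S ∧ G.Adj a b) (φ i m) (φ i m') := by
    intro m hm m' hm' hx h1 h2
    rw [hundred i] at h1 h2
    rcases h.near i hi i hi m hm m' hm' h1 h2 with e | e
    · rw [e]
    · exact ReflTransGen.single ⟨⟨hx, m', hm', rfl⟩, e⟩
  have up : ∀ m < 100 ^ k, φ i m ∉ X → ∀ m' < 100 ^ k, φ i m' ∉ X → m ≤ m' →
      ReflTransGen (fun a b => b ∈ S ∧ G.Adj a b) (φ i m) (φ i m') ∧
      ReflTransGen (fun a b => b ∈ S ∧ G.Adj a b) (φ i m') (φ i m) := by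
    intro m hm hx m'
    induction m' using Nat.strong_induction_on with
    | _ m' ih =>
      intro hm' hx' hle
      by_cases c : m' ≤ m + 2 * 100 ^ i
      · exact ⟨step m hm m' hm' hx' (by omega) c, step m' hm' m hm hx c (by omega)⟩
      · have p : 0 < 100 ^ i := by positivity
        have b1 := block_le hi.le hm'
        have b2 := Nat.div_add_mod' m' (100 ^ i)
        have b3 := Nat.mod_lt m' p
        obtain ⟨a, ha⟩ : ∃ a, m' / 100 ^ i = a + 1 :=
          ⟨m' / 100 ^ i - 1, (Nat.sub_add_cancel (Nat.div_pos (by omega) p)).symm⟩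
        rw [ha] at b1 b2
        simp only [add_mul, one_mul] at b1 b2 hX
        obtain ⟨n, n1, n2, n3⟩ := hX a (by omega)
        obtain ⟨r1, r2⟩ := ih n (by omega) (by omega) n3 (by omega)
        exact ⟨r1.trans (step n (by omega) m' hm' hx' (by omega) (by omega)),
          (step m' hm' n (by omega) n3 (by omega) (by omega)).trans r2⟩
  rintro _ ⟨hx, m, hm, rfl⟩ _ ⟨hx', m', hm', rfl⟩
  rcases le_total m m' with c | c
  · exact (up m hm hx m' hm' hx' c).1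
  · exact (up m' hm' hx' m hm hx c).2

theorem Model.bag {G : SimpleGraph V} {k : ℕ} {φ : ℕ → ℕ → V} (h : Model G k φ) {n : ℕ}
    {T : SimpleGraph (Fin n)} {X : Fin n → Set V} (hT : IsTreeDec G T X) :
    ∃ t, ∃ S : Finset V, (S : Set V) ⊆ X t ∧ G.IsIndepSet S ∧ S.card = k ∧
      ∀ v ∈ S, ∃ i < k, ∃ m < 100 ^ k, φ i m = v := by
  classical
  have hne : Nonempty (Fin n) := hT.1.connected.nonempty
  obtain ⟨t, ht⟩ : ∃ t, ∀ i < k, ∃ a, (a + 1) * 100 ^ i ≤ 100 ^ k ∧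
      ∀ m, a * 100 ^ i ≤ m → m < (a + 1) * 100 ^ i → φ i m ∈ X t := by
    by_contra hcon
    push Not at hcon
    choose i hi hX using hcon
    have touch : ∀ s t, i s ≤ i t → ∃ u ∈ {v | v ∉ X s ∧ ∃ m < 100 ^ k, φ (i s) m = v},
        ∃ v ∈ {v | v ∉ X t ∧ ∃ m < 100 ^ k, φ (i t) m = v}, u = v ∨ G.Adj u v := by
      intro s t hst
      have q : (0 + 1) * 100 ^ i t ≤ 100 ^ k := by
        rw [zero_add, one_mul]
        exact Nat.pow_le_pow_right (by norm_num) (hi t).le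
      obtain ⟨m', -, m2, m3⟩ := hX t 0 q
      have hm' : m' < 100 ^ k := m2.trans_le q
      have b1 := block_le (hi s).le hm'
      obtain ⟨m, n1, n2, n3⟩ := hX s _ b1
      have b2 := Nat.div_add_mod' m' (100 ^ i s)
      have b3 := Nat.mod_lt m' (show 0 < 100 ^ i s by positivity)
      have b4 : 100 ^ i s ≤ 10 ^ (i s + i t) := by
        rw [hundred]
        exact Nat.pow_le_pow_right (by norm_num) (by omega)
      have hm : m < 100 ^ k := n2.trans_le b1
      rw [add_mul, one_mul] at n2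
      exact ⟨_, ⟨n3, m, hm, rfl⟩, _, ⟨m3, m', hm', rfl⟩,
        h.near _ (hi s) _ (hi t) m hm m' hm' (by omega) (by omega)⟩
    obtain ⟨t, ht⟩ := bramble hT (fun t => {v | v ∉ X t ∧ ∃ m < 100 ^ k, φ (i t) m = v})
      (fun t => h.conn (hi t) (hX t)) fun s t => by
        rcases le_total (i s) (i t) with c | c
        · exact touch s t c
        · obtain ⟨u, hu, v, hv, e⟩ := touch t s c
          exact ⟨v, hv, u, hu, e.imp Eq.symm Adj.symm⟩
    obtain ⟨v, hv, hv'⟩ := ht t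
    exact hv.1 hv'
  choose! a ha hX using ht
  obtain ⟨f, hf⟩ := greedy a k
  have hlt : ∀ i < k, f i < 100 ^ k := fun i hi => (hf i hi).1.2.trans_le (ha i hi)
  refine ⟨t, (Finset.range k).image fun i => φ i (f i), fun v hv => ?_, fun u hu v hv huv e => ?_,
    ?_, fun v hv => ?_⟩
  · obtain ⟨i, hi, rfl⟩ := Finset.mem_image.1 hv
    have hi' := Finset.mem_range.1 hi
    exact hX i hi' _ (hf i hi').1.1 (hf i hi').1.2
  · obtain ⟨i, hi, rfl⟩ := Finset.mem_image.1 hu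
    obtain ⟨j, hj, rfl⟩ := Finset.mem_image.1 hv
    have hi' := Finset.mem_range.1 hi
    have hj' := Finset.mem_range.1 hj
    have e1 := h.far i hi' j hj' _ (hlt i hi') _ (hlt j hj') e
    have e2 := h.far j hj' i hi' _ (hlt j hj') _ (hlt i hi') e.symm
    rcases lt_trichotomy i j with c | rfl | c
    · have := (hf j hj').2 i c
      rw [add_comm j i] at e2
      omega
    · exact huv rfl
    · have := (hf i hi').2 j c
      rw [add_comm i j] at e1
      omega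
  · rw [Finset.card_image_of_injOn, Finset.card_range]
    intro i hi j hj e
    have hi' := Finset.mem_range.1 hi
    have hj' := Finset.mem_range.1 hj
    exact h.inj i hi' j hj' _ (hlt i hi') _ (hlt j hj') e
  · obtain ⟨i, hi, rfl⟩ := Finset.mem_image.1 hv
    have hi' := Finset.mem_range.1 hi
    exact ⟨i, hi', _, hlt i hi', rfl⟩

theorem Model.le_ltree [Finite V] {G : SimpleGraph V} {k : ℕ} {φ : ℕ → ℕ → V} (h : Model G k φ)
    {o : V} (ho : ∀ i < k, ∀ m < 100 ^ k, G.Adj o (φ i m)) {r : ℝ} (hr : 0 < r)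
    {c : V → UpperHalfPlane} (hc : IsDiskRep G r c) : k ≤ 3 * ltreeAlpha G := by
  classical
  obtain ⟨n, T, X, l, hT, hl, hK⟩ := Nat.sInf_mem (s := {k | ∃ (m : ℕ) (T : SimpleGraph (Fin m))
    (X : Fin m → Set V) (l : V → ℕ), IsTreeDec G T X ∧ IsLayering G l ∧
      ∀ t i, (G.induce (X t ∩ {v | l v = i})).indepNum ≤ k})
    (Set.nonempty_of_mem (x := 2 * (⌊2 * r / min r (log 2)⌋₊ + 1)) (exists_dec hr hc))
  obtain ⟨t, S, h1, h2, h3, h4⟩ := h.bag hT
  have key : ∀ i, (S.filter fun v => l v = i).card ≤ ltreeAlpha G := fun i =>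
    (card_le_indepNum (Y := X t ∩ {v | l v = i})
      (fun v hv => ⟨h1 (Finset.mem_filter.1 hv).1, (Finset.mem_filter.1 hv).2⟩)
      (h2.mono (Finset.coe_subset.2 (Finset.filter_subset _ _)))).trans (hK t i)
  have h5 : S ⊆ (S.filter fun v => l v = l o - 1) ∪ (S.filter fun v => l v = l o) ∪
      S.filter fun v => l v = l o + 1 := by
    intro v hv
    obtain ⟨i, hi, m, hm, rfl⟩ := h4 v hv
    have e1 := hl _ _ (ho i hi m hm)
    have e2 := hl _ _ (ho i hi m hm).symm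
    simp only [Finset.mem_union, Finset.mem_filter, hv, true_and]
    omega
  have h6 := Finset.card_le_card h5
  have h7 := Finset.card_union_le ((S.filter fun v => l v = l o - 1) ∪ S.filter fun v => l v = l o)
    (S.filter fun v => l v = l o + 1)
  have h8 := Finset.card_union_le (S.filter fun v => l v = l o - 1) (S.filter fun v => l v = l o)
  have := key (l o - 1)
  have := key (l o)
  have := key (l o + 1)
  omega

/-- the centres -/
noncomputable def ctr (s : ℝ) (hs : 0 < s) (k : ℕ) :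
    Option (Fin k × Fin (100 ^ k)) → UpperHalfPlane
  | none => ⟨⟨0, s ^ 2⟩, by positivity⟩
  | some p => ⟨⟨p.2 * (s / 2), 100 ^ (p.1 : ℕ)⟩, by positivity⟩

/-- the disk graph of a family of centres -/
def diskGraph (r : ℝ) (c : V → UpperHalfPlane) : SimpleGraph V where
  Adj u v := u ≠ v ∧ dist (c u) (c v) ≤ 2 * r
  symm := ⟨fun _ _ h => ⟨h.1.symm, _root_.dist_comm (c _) (c _) ▸ h.2⟩⟩
  loopless := ⟨fun _ h => h.1 rfl⟩

theorem lower_aux {r : ℝ} (hr : 0 < r) {k : ℕ} (hk : (100 : ℝ) ^ k ≤ sinh r) :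
    Function.Injective (ctr (sinh r) (sinh_pos_iff.2 hr) k) ∧
      (∀ v, v ≠ none → (diskGraph r (ctr (sinh r) (sinh_pos_iff.2 hr) k)).Adj none v) ∧
      k ≤ 3 * ltreeAlpha (diskGraph r (ctr (sinh r) (sinh_pos_iff.2 hr) k)) := by
  have ps := sinh_pos_iff.2 hr
  have y1 : ∀ i : ℕ, (1 : ℝ) ≤ 100 ^ i := fun i => one_le_pow₀ (by norm_num)
  have s1 : 1 ≤ sinh r := (y1 k).trans hk
  have y2 : ∀ i : Fin k, (100 : ℝ) ^ (i : ℕ) < sinh r := fun i =>
    (pow_lt_pow_right₀ (by norm_num) i.2).trans_le hk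
  have y3 : ∀ i j : ℕ, (100 : ℝ) ^ i * 100 ^ j = (10 ^ (i + j)) ^ 2 := fun i j => by
    rw [← pow_add, ← pow_mul, mul_comm, pow_mul]; norm_num
  have dom : ∀ v, v ≠ none → (diskGraph r (ctr (sinh r) ps k)).Adj none v := by
    rintro (_ | ⟨i, m⟩) hv
    · exact absurd rfl hv
    refine ⟨hv.symm, (dist_le_iff hr.le _ _).2 ?_⟩
    change (0 - (m : ℕ) * (sinh r / 2)) ^ 2 + (sinh r ^ 2 - 100 ^ (i : ℕ)) ^ 2 ≤
      4 * sinh r ^ 2 * (sinh r ^ 2 * 100 ^ (i : ℕ))
    have m1 : ((m : ℕ) : ℝ) ≤ sinh r := le_trans (by exact_mod_cast m.2.le) hk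
    have m2 : (((m : ℕ) : ℝ) * (sinh r / 2)) ^ 2 ≤ (sinh r ^ 2) ^ 2 :=
      pow_le_pow_left₀ (by positivity) (by nlinarith) 2
    have m3 : (sinh r ^ 2 - 100 ^ (i : ℕ)) ^ 2 ≤ (sinh r ^ 2) ^ 2 :=
      pow_le_pow_left₀ (by nlinarith [y2 i]) (by linarith [y1 i]) 2
    have m4 : (sinh r ^ 2) ^ 2 * 1 ≤ (sinh r ^ 2) ^ 2 * 100 ^ (i : ℕ) :=
      mul_le_mul_of_nonneg_left (y1 i) (by positivity)
    have m5 : 0 ≤ (sinh r ^ 2) ^ 2 := by positivity
    nlinarith
  refine ⟨?_, dom, Model.le_ltree (o := none) (φ := fun i m =>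
    if h : i < k ∧ m < 100 ^ k then some (⟨i, h.1⟩, ⟨m, h.2⟩) else none) ⟨?_, ?_, ?_⟩ ?_ hr
    fun _ _ => Iff.rfl⟩
  · have him : ∀ i : Fin k, (100 : ℝ) ^ (i : ℕ) ≠ sinh r ^ 2 := fun i => by nlinarith [y2 i]
    rintro (_ | ⟨i, m⟩) (_ | ⟨j, m'⟩) e
    · rfl
    · exact absurd (congrArg UpperHalfPlane.im e).symm (him j)
    · exact absurd (congrArg UpperHalfPlane.im e) (him i)
    · have e1 : (100 : ℝ) ^ (i : ℕ) = 100 ^ (j : ℕ) := congrArg UpperHalfPlane.im e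
      have e2 : ((m : ℕ) : ℝ) * (sinh r / 2) = (m' : ℕ) * (sinh r / 2) :=
        congrArg UpperHalfPlane.re e
      have e3 : i = j := Fin.ext (pow_right_injective₀ (by norm_num) (by norm_num) e1)
      have e4 : m = m' := Fin.ext (Nat.cast_injective (mul_right_cancel₀ (by positivity) e2))
      rw [e3, e4]
  · intro i hi j hj m hm m' hm' h1 h2
    rw [dif_pos ⟨hi, hm⟩, dif_pos ⟨hj, hm'⟩]
    refine or_iff_not_imp_left.2 fun hne => ⟨hne, (dist_le_iff hr.le _ _).2 ?_⟩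
    change ((m : ℝ) * (sinh r / 2) - m' * (sinh r / 2)) ^ 2 + (100 ^ i - 100 ^ j) ^ 2 ≤
      4 * sinh r ^ 2 * (100 ^ i * 100 ^ j)
    have h1' : (m : ℝ) ≤ m' + 2 * 10 ^ (i + j) := by exact_mod_cast h1
    have h2' : (m' : ℝ) ≤ m + 2 * 10 ^ (i + j) := by exact_mod_cast h2
    have a1 : ((m : ℝ) - m') ^ 2 ≤ (2 * 10 ^ (i + j)) ^ 2 :=
      sq_le_sq' (by linarith) (by linarith)
    have a2 : ((m : ℝ) * (sinh r / 2) - m' * (sinh r / 2)) ^ 2 ≤
        sinh r ^ 2 * (100 ^ i * 100 ^ j) := by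
      rw [y3]
      nlinarith [mul_le_mul_of_nonneg_left a1 (sq_nonneg (sinh r))]
    have a3 : ∀ a b : ℝ, 1 ≤ a → 1 ≤ b → a < sinh r → a ^ 2 ≤ sinh r ^ 2 * (a * b) := by
      intro a b ha hb h
      have c1 : a ^ 2 ≤ sinh r ^ 2 := pow_le_pow_left₀ (by linarith) h.le 2
      have c2 : sinh r ^ 2 * 1 ≤ sinh r ^ 2 * (a * b) :=
        mul_le_mul_of_nonneg_left (by nlinarith) (by positivity)
      linarith
    have a4 := a3 _ _ (y1 i) (y1 j) (y2 ⟨i, hi⟩)
    have a5 := a3 _ _ (y1 j) (y1 i) (y2 ⟨j, hj⟩)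
    have a6 : (0 : ℝ) ≤ 100 ^ i * 100 ^ j := by positivity
    have a7 : 0 ≤ sinh r ^ 2 * (100 ^ i * 100 ^ j) := by positivity
    nlinarith
  · intro i hi j hj m hm m' hm' h
    rw [dif_pos ⟨hi, hm⟩, dif_pos ⟨hj, hm'⟩] at h
    have h1 := (dist_le_iff hr.le _ _).1 h.2
    change ((m : ℝ) * (sinh r / 2) - m' * (sinh r / 2)) ^ 2 + (100 ^ i - 100 ^ j) ^ 2 ≤
      4 * sinh r ^ 2 * (100 ^ i * 100 ^ j) at h1
    rw [y3] at h1
    have h2 : ((m : ℝ) - m') ^ 2 ≤ (4 * 10 ^ (i + j)) ^ 2 := by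
      refine le_of_mul_le_mul_left ?_ (show 0 < sinh r ^ 2 by positivity)
      nlinarith [sq_nonneg ((100 : ℝ) ^ i - 100 ^ j)]
    have h3 := (abs_le.1 (abs_le_of_sq_le_sq h2 (by positivity))).2
    have h4 : (m : ℝ) ≤ m' + 4 * 10 ^ (i + j) := by linarith
    exact_mod_cast h4
  · intro i hi j hj m hm m' hm' h
    rw [dif_pos ⟨hi, hm⟩, dif_pos ⟨hj, hm'⟩] at h
    exact congrArg (fun p : Fin k × Fin (100 ^ k) => p.1.val) (Option.some.inj h)
  · intro i hi m hm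
    rw [dif_pos ⟨hi, hm⟩]
    exact dom _ (Option.some_ne_none _)

theorem pow_le_exp {r : ℝ} (hr : 18 ≤ r) : (200 : ℝ) ^ ⌊r / 6 - 1⌋₊ * 200 ≤ exp r := by
  have h1 : (200 : ℝ) ≤ exp 6 := by
    rw [show (6 : ℝ) = (6 : ℕ) * 1 by norm_num, exp_nat_mul]
    exact le_trans (by norm_num) (pow_le_pow_left₀ (by norm_num) exp_one_gt_d9.le 6)
  have h2 : (⌊r / 6 - 1⌋₊ : ℝ) ≤ r / 6 - 1 := Nat.floor_le (by linarith)
  refine (mul_le_mul (pow_le_pow_left₀ (by norm_num) h1 _) h1 (by norm_num)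
    (by positivity)).trans ?_
  rw [← exp_nat_mul, ← exp_add]
  exact exp_le_exp.2 (by linarith)

theorem lower {r : ℝ} (hr : 0 < r) : ∃ (V : Type) (_ : Finite V) (G : SimpleGraph V)
    (c : V → UpperHalfPlane), Function.Injective c ∧ IsDiskRep G r c ∧
      (∃ o, ∀ v, v ≠ o → G.Adj o v) ∧ Nat.card V ≤ exp r ∧ r / 18 - 1 ≤ ltreeAlpha G := by
  rcases le_total r 18 with h | h
  · refine ⟨Unit, inferInstance, diskGraph r fun _ => UpperHalfPlane.I, fun _ => UpperHalfPlane.I,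
      fun _ _ _ => rfl, fun _ _ => Iff.rfl, ⟨(), fun v hv => absurd rfl hv⟩, ?_, ?_⟩
    · simpa using hr.le
    · exact le_trans (by linarith) (Nat.cast_nonneg _)
  · have h4 := Nat.lt_floor_add_one (r / 6 - 1)
    have h6 := pow_le_exp h
    generalize ⌊r / 6 - 1⌋₊ = k at h4 h6
    have p1 : (0 : ℝ) < 200 ^ k := by positivity
    have p2 : (100 : ℝ) ^ k ≤ 200 ^ k := pow_le_pow_left₀ (by norm_num) (by norm_num) k
    have p3 : (100 : ℝ) ^ k ≤ sinh r := by
      have := exp_le_one_iff.2 (show -r ≤ 0 by linarith)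
      have := add_one_le_exp r
      rw [sinh_eq]
      linarith
    obtain ⟨h1, h2, h3⟩ := lower_aux hr p3
    refine ⟨_, inferInstance, _, _, h1, fun _ _ => Iff.rfl, ⟨none, h2⟩, ?_, ?_⟩
    · have q1 : (k : ℝ) ≤ 2 ^ k := by exact_mod_cast Nat.lt_two_pow_self.le
      have q2 : (k : ℝ) * 100 ^ k ≤ 200 ^ k := by
        rw [show (200 : ℝ) = 2 * 100 by norm_num, mul_pow]
        exact mul_le_mul_of_nonneg_right q1 (by positivity)
      have q3 : (1 : ℝ) ≤ 200 ^ k := one_le_pow₀ (by norm_num)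
      simp only [Nat.card_eq_fintype_card, Fintype.card_option, Fintype.card_prod,
        Fintype.card_fin]
      push_cast
      linarith
    · have h5 := (Nat.cast_le (α := ℝ)).2 h3
      push_cast at h5
      linarith

end Pool.Agent.P.MP_49eb30_co
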