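import Pool.Agent.P.MP_49eb30_co.Defs

/-! The Helly property of subtrees and the bramble lemma. -/

namespace Pool.Agent.P.MP_49eb30_co

open SimpleGraph Relation

variable {V W : Type}

/-- connectedness of a vertex set, as reachability inside the set -/
def Conn (G : SimpleGraph V) (S : Set V) : Prop :=
  ∀ u ∈ S, ∀ v ∈ S, ReflTransGen (fun a b => b ∈ S ∧ G.Adj a b) u v

theorem conn_of_connected {G : SimpleGraph V} {S : Set V} (h : (G.induce S).Connected) :
    Conn G S := by
  intro u hu v hv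
  have h1 := (reachable_iff_reflTransGen _ _).1 (h.preconnected ⟨u, hu⟩ ⟨v, hv⟩)
  exact ReflTransGen.lift (p := fun a b => b ∈ S ∧ G.Adj a b) (fun x : S => (x : V))
    (fun a b hab => ⟨b.2, hab⟩) _ _ h1

theorem connected_of_conn {G : SimpleGraph V} {S : Set V} (h : Conn G S) (hS : S.Nonempty) :
    (G.induce S).Connected := by
  have : Nonempty S := hS.to_subtype
  refine ⟨fun u v => ?_⟩
  have key : ∀ w, ReflTransGen (fun a b => b ∈ S ∧ G.Adj a b) u.1 w →
      ∀ hw : w ∈ S, (G.induce S).Reachable u ⟨w, hw⟩ := by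
    intro w hw
    induction hw with
    | refl => exact fun _ => Reachable.refl _
    | @tail b c hab hbc ih =>
      intro hc
      have hb : b ∈ S := by
        cases hab with
        | refl => exact u.2
        | tail _ h2 => exact h2.1
      exact (ih hb).trans (Adj.reachable (G := G.induce S) (u := ⟨b, hb⟩) (v := ⟨c, hc⟩) hbc.2)
  exact key v.1 (h u.1 u.2 v.1 v.2) v.2

theorem exists_parent {T : SimpleGraph W} (hT : T.IsTree) (ρ : W) :
    ∃ p : W → W, ∀ u v, T.Adj u v →
      (p v = u ∧ T.dist ρ v = T.dist ρ u + 1) ∨ (p u = v ∧ T.dist ρ u = T.dist ρ v + 1) := by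
  classical
  choose q hq hq' using fun v => hT.existsUnique_path ρ v
  have key : ∀ u v, T.Adj u v → T.dist ρ v = T.dist ρ u + 1 → (q v).penultimate = u := by
    intro u v h e
    obtain ⟨w, hw⟩ := hT.connected.exists_walk_length_eq_dist ρ u
    have h1 : (w.concat h).IsPath :=
      Walk.isPath_of_length_eq_dist _ (by rw [Walk.length_concat, hw, e])
    rw [← hq' v _ h1, Walk.penultimate_concat]
  refine ⟨fun v => (q v).penultimate, fun u v h => ?_⟩
  rcases hT.dist_eq_dist_add_one_of_adj ρ h with e | e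
  · exact Or.inr ⟨key v u h.symm e, e⟩
  · exact Or.inl ⟨key u v h e, e⟩

/-- pairwise intersecting subtrees of a tree have a common node -/
theorem helly {T : SimpleGraph W} (hT : T.IsTree) {ι : Type} [Finite ι] [Nonempty ι]
    (S : ι → Set W) (hc : ∀ i, Conn T (S i)) (hp : ∀ i j, (S i ∩ S j).Nonempty) :
    ∃ t, ∀ i, t ∈ S i := by
  obtain ⟨ρ⟩ := hT.connected.nonempty
  obtain ⟨p, hpar⟩ := exists_parent hT ρ
  have htop : ∀ i, ∃ a ∈ S i, ∀ b ∈ S i, T.dist ρ a ≤ T.dist ρ b := fun i => by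
    obtain ⟨a, ha, -⟩ := hp i i
    exact ⟨Function.argminOn (T.dist ρ) (S i) ⟨a, ha⟩, Function.argminOn_mem _ _ _,
      fun b hb => Function.argminOn_le (T.dist ρ) (S i) hb⟩
  choose a ha hmin using htop
  have up : ∀ i, ∀ t ∈ S i, ∃ n, p^[n] t = a i ∧ T.dist ρ t = T.dist ρ (a i) + n ∧
      ∀ j, j ≤ n → p^[j] t ∈ S i := by
    intro i t ht
    have h1 := hc i (a i) (ha i) t ht
    clear ht
    induction h1 with
    | refl => exact ⟨0, rfl, rfl, fun j hj => by rw [Nat.le_zero.1 hj]; exact ha i⟩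
    | @tail b c _ hbc ih =>
      obtain ⟨n, e1, e2, e3⟩ := ih
      rcases hpar b c hbc.2 with ⟨f1, f2⟩ | ⟨f1, f2⟩
      · refine ⟨n + 1, by rw [Function.iterate_succ_apply, f1, e1], by omega, fun j hj => ?_⟩
        cases j with
        | zero => exact hbc.1
        | succ j => rw [Function.iterate_succ_apply, f1]; exact e3 j (by omega)
      · have := hmin i c hbc.1
        obtain ⟨n, rfl⟩ : ∃ n', n = n' + 1 := ⟨n - 1, by omega⟩
        refine ⟨n, by rw [← f1, ← Function.iterate_succ_apply, e1], by omega, fun j hj => ?_⟩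
        rw [← f1, ← Function.iterate_succ_apply]
        exact e3 _ (by omega)
  obtain ⟨i₀, hi₀⟩ := Finite.exists_max fun i => T.dist ρ (a i)
  refine ⟨a i₀, fun i => ?_⟩
  obtain ⟨t, h1, h2⟩ := hp i i₀
  obtain ⟨n, -, e2, e3⟩ := up i t h1
  obtain ⟨n', f1, f2, -⟩ := up i₀ t h2
  have := hi₀ i
  rw [← f1]
  exact e3 n' (by omega)

/-- some bag meets every member of a bramble -/
theorem bramble {G : SimpleGraph V} {m : ℕ} {T : SimpleGraph (Fin m)} {X : Fin m → Set V}
    (h : IsTreeDec G T X) {ι : Type} [Finite ι] [Nonempty ι] (B : ι → Set V)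
    (hc : ∀ i, Conn G (B i))
    (hp : ∀ i j, ∃ u ∈ B i, ∃ v ∈ B j, u = v ∨ G.Adj u v) : ∃ t, ∀ i, ∃ v ∈ B i, v ∈ X t := by
  obtain ⟨hT, he, hv⟩ := h
  have hne : ∀ v, ∃ t, v ∈ X t := fun v => by
    obtain ⟨⟨t, ht⟩⟩ := (hv v).nonempty
    exact ⟨t, ht⟩
  refine helly hT (fun i => {t | ∃ v ∈ B i, v ∈ X t}) (fun i => ?_) fun i j => ?_
  · rintro s ⟨u, hu, hs⟩ t ⟨v, hv', ht⟩
    have mv : ∀ w ∈ B i, ∀ s t, w ∈ X s → w ∈ X t →
        ReflTransGen (fun a b => b ∈ {t | ∃ v ∈ B i, v ∈ X t} ∧ T.Adj a b) s t :=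
      fun w hw s t hs ht => ReflTransGen.mono (fun a b hab => ⟨⟨w, hw, hab.1⟩, hab.2⟩) _ _
        (conn_of_connected (hv w) s hs t ht)
    have h1 := hc i u hu v hv'
    induction h1 generalizing t with
    | refl => exact mv u hu s t hs ht
    | @tail b c hab hbc ih =>
      have hb : b ∈ B i := by
        cases hab with
        | refl => exact hu
        | tail _ h2 => exact h2.1
      obtain ⟨t', h2, h3⟩ := he b c hbc.2
      exact (ih t' hb h2).trans (mv c hv' t' t h3 ht)
  · obtain ⟨u, hu, v, hv', rfl | huv⟩ := hp i j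
    · obtain ⟨t, ht⟩ := hne u
      exact ⟨t, ⟨u, hu, ht⟩, ⟨u, hv', ht⟩⟩
    · obtain ⟨t, h1, h2⟩ := he u v huv
      exact ⟨t, ⟨u, hu, h1⟩, ⟨v, hv', h2⟩⟩

theorem card_le_indepNum [Finite V] {G : SimpleGraph V} {Y : Set V} {S : Finset V}
    (hS : (S : Set V) ⊆ Y) (hi : G.IsIndepSet S) : S.card ≤ (G.induce Y).indepNum := by
  classical
  have h1 : (G.induce Y).IsIndepSet (S.subtype (· ∈ Y) : Finset Y) := by
    intro a ha b hb hab h
    exact hi (Finset.mem_subtype.1 ha) (Finset.mem_subtype.1 hb)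
      (fun e => hab (Subtype.ext e)) h
  have h2 := h1.card_le_indepNum
  rwa [Finset.card_subtype, Finset.filter_true_of_mem fun x hx => hS hx] at h2

theorem indepNum_le {G : SimpleGraph V} {Y : Set V} {k : ℕ}
    (h : ∀ S : Finset V, (S : Set V) ⊆ Y → G.IsIndepSet S → S.card ≤ k) :
    (G.induce Y).indepNum ≤ k := by
  obtain ⟨s, hs⟩ := (G.induce Y).exists_isNIndepSet_indepNum
  rw [← hs.card_eq, ← Finset.card_map (Function.Embedding.subtype (· ∈ Y))]
  refine h _ (fun x hx => ?_) fun a ha b hb hab hadj => ?_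
  · obtain ⟨y, -, rfl⟩ := Finset.mem_map.1 hx
    exact y.2
  · obtain ⟨x, hx, rfl⟩ := Finset.mem_map.1 ha
    obtain ⟨y, hy, rfl⟩ := Finset.mem_map.1 hb
    exact hs.isIndepSet hx hy (fun e => hab (by rw [e])) hadj

theorem pathGraph_isTree (n : ℕ) : (pathGraph (n + 1)).IsTree := by
  refine ⟨pathGraph_connected n, isAcyclic_iff_forall_adj_isBridge.2 ?_⟩
  have key : ∀ u v : Fin (n + 1), u.val + 1 = v.val → (pathGraph (n + 1)).IsBridge s(u, v) := by
    intro u v h
    rw [isBridge_iff]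
    intro hr
    have h1 := (reachable_iff_reflTransGen _ _).1 hr
    have h2 : ∀ w, ReflTransGen ((pathGraph (n + 1)).deleteEdges {s(u, v)}).Adj u w →
        w.val ≤ u.val := by
      intro w hw
      induction hw with
      | refl => exact le_rfl
      | @tail b c _ hbc ih =>
        rw [deleteEdges_adj, pathGraph_adj] at hbc
        by_contra hc
        refine hbc.2 ?_
        have e1 : b = u := Fin.ext (by omega)
        have e2 : c = v := Fin.ext (by omega)
        rw [e1, e2]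
        rfl
    have := h2 v h1
    omega
  intro u v h
  rcases pathGraph_adj.1 h with h | h
  · exact key u v h
  · rw [Sym2.eq_swap]
    exact key v u h

theorem conn_pathGraph {n : ℕ} {S : Set (Fin n)}
    (h : ∀ a ∈ S, ∀ b ∈ S, ∀ c, a ≤ c → c ≤ b → c ∈ S) : Conn (pathGraph n) S := by
  have up : ∀ a ∈ S, ∀ d : ℕ, ∀ b ∈ S, b.val = a.val + d →
      ReflTransGen (fun a b => b ∈ S ∧ (pathGraph n).Adj a b) a b ∧
      ReflTransGen (fun a b => b ∈ S ∧ (pathGraph n).Adj a b) b a := by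
    intro a ha d
    induction d with
    | zero =>
      intro b _ e
      rw [show b = a from Fin.ext e]
      exact ⟨ReflTransGen.refl, ReflTransGen.refl⟩
    | succ d ih =>
      intro b hb e
      have hc : (⟨a.val + d, by omega⟩ : Fin n) ∈ S :=
        h a ha b hb _ (Fin.le_def.2 (by simp)) (Fin.le_def.2 (by simp; omega))
      obtain ⟨h1, h2⟩ := ih _ hc rfl
      exact ⟨h1.tail ⟨hb, pathGraph_adj.2 (Or.inl (by simp; omega))⟩,
        ReflTransGen.head ⟨hc, pathGraph_adj.2 (Or.inr (by simp; omega))⟩ h2⟩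
  intro a ha b hb
  rcases le_total a.val b.val with e | e
  · exact (up a ha (b.val - a.val) b hb (by omega)).1
  · exact (up b hb (a.val - b.val) a ha (by omega)).2

end Pool.Agent.P.MP_49eb30_co
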