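import Pool.Agent.P.MP_49eb30_co.Tree

/-! The upper bound: vertical geodesics as separators, horizontal strips as layers. -/

namespace Pool.Agent.P.MP_49eb30_co

open SimpleGraph Real

variable {V : Type}

theorem dist_le_iff {r : ℝ} (hr : 0 ≤ r) (z w : UpperHalfPlane) : dist z w ≤ 2 * r ↔
    (z.re - w.re) ^ 2 + (z.im - w.im) ^ 2 ≤ 4 * sinh r ^ 2 * (z.im * w.im) := by
  have hz := z.im_pos
  have hw := w.im_pos
  rw [← abs_of_nonneg (dist_nonneg (x := z) (y := w)), ← abs_of_nonneg (a := 2 * r) (by linarith),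
    ← cosh_le_cosh, UpperHalfPlane.cosh_dist', cosh_two_mul, cosh_sq', div_le_iff₀ (by positivity)]
  constructor <;> intro h <;> linarith

theorem close_aux {r x₀ : ℝ} (hr : 0 < r) {z w : UpperHalfPlane} (hzw : z.im ≤ w.im)
    (h : log w.im - log z.im ≤ min r (log 2)) (hz : |z.re - x₀| ≤ sinh r * z.im)
    (hw : |w.re - x₀| ≤ sinh r * w.im) (hs : z.re ≤ x₀ ↔ w.re ≤ x₀) : dist z w ≤ 2 * r := by
  have pz := z.im_pos
  have pw := w.im_pos
  have ps : 0 < sinh r := sinh_pos_iff.2 hr
  rw [dist_le_iff hr.le]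
  obtain ⟨τ, hτ⟩ : ∃ τ, τ = log w.im - log z.im := ⟨_, rfl⟩
  have e : w.im = z.im * exp τ := by
    rw [hτ, exp_sub, exp_log pw, exp_log pz]
    field_simp
  have t0 : 0 ≤ τ := hτ ▸ sub_nonneg.2 (log_le_log pz hzw)
  have t1 : exp τ ≤ 2 := by
    rw [← exp_log (show (0 : ℝ) < 2 by norm_num)]
    exact exp_le_exp.2 (hτ ▸ h.trans (min_le_right _ _))
  have t2 : cosh τ ≤ cosh r := by
    rw [cosh_le_cosh, abs_of_nonneg t0, abs_of_pos hr]
    exact hτ ▸ h.trans (min_le_left _ _)
  have a1 : |z.re - w.re| ≤ sinh r * w.im := by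
    have hz' := hz.trans (mul_le_mul_of_nonneg_left hzw ps.le)
    rw [abs_le] at hz' hw ⊢
    by_cases c : z.re ≤ x₀
    · have := hs.1 c
      constructor <;> linarith [hz'.1, hw.1]
    · have c' : ¬ w.re ≤ x₀ := fun h => c (hs.2 h)
      push Not at c c'
      constructor <;> linarith [hz'.2, hw.2]
  have a2 : (z.re - w.re) ^ 2 ≤ 2 * sinh r ^ 2 * (z.im * w.im) := by
    have b1 : (z.re - w.re) ^ 2 ≤ (sinh r * w.im) ^ 2 := by
      rw [← sq_abs]
      exact pow_le_pow_left₀ (abs_nonneg _) a1 2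
    have b2 : w.im ≤ 2 * z.im := by rw [e]; nlinarith
    have b3 : sinh r ^ 2 * w.im * w.im ≤ sinh r ^ 2 * w.im * (2 * z.im) :=
      mul_le_mul_of_nonneg_left b2 (by positivity)
    nlinarith
  have a3 : (z.im - w.im) ^ 2 ≤ 2 * sinh r ^ 2 * (z.im * w.im) := by
    have b1 : (z.im - w.im) ^ 2 = 2 * (cosh τ - 1) * (z.im * w.im) := by
      rw [e, cosh_eq, exp_neg]
      field_simp
      ring
    have b2 : cosh r - 1 ≤ sinh r ^ 2 := by
      have := one_le_cosh r
      rw [sinh_sq]
      nlinarith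
    rw [b1]
    exact mul_le_mul_of_nonneg_right (by linarith) (by positivity)
  linarith

theorem exists_dec [Finite V] {G : SimpleGraph V} {r : ℝ} (hr : 0 < r) {c : V → UpperHalfPlane}
    (h : IsDiskRep G r c) : ∃ (m : ℕ) (T : SimpleGraph (Fin m)) (X : Fin m → Set V) (l : V → ℕ),
      IsTreeDec G T X ∧ IsLayering G l ∧
      ∀ t i, (G.induce (X t ∩ {v | l v = i})).indepNum ≤ 2 * (⌊2 * r / min r (log 2)⌋₊ + 1) := by
  classical
  have := Fintype.ofFinite V
  have ps : 0 < sinh r := sinh_pos_iff.2 hr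
  obtain ⟨μ, hμ⟩ : ∃ μ, ∀ v, μ ≤ log (c v).im := by
    obtain ⟨μ, hμ⟩ := (Set.finite_range fun v => log (c v).im).bddBelow
    exact ⟨μ, fun v => hμ ⟨v, rfl⟩⟩
  set P : Finset ℝ := insert 0 (Finset.univ.image fun v => (c v).re - sinh r * (c v).im) with hP
  obtain ⟨n, hn⟩ : ∃ n, P.card = n + 1 :=
    ⟨P.card - 1, (Nat.sub_add_cancel
      (Finset.card_pos.2 (Finset.insert_nonempty _ _ : P.Nonempty))).symm⟩
  set e := P.orderEmbOfFin hn with he
  have hsur : ∀ v, ∃ t, e t = (c v).re - sinh r * (c v).im := fun v => by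
    have : (c v).re - sinh r * (c v).im ∈ Set.range e := by
      rw [he, Finset.range_orderEmbOfFin, hP]
      simp
    exact this
  have hp : 0 < min r (log 2) := lt_min hr (log_pos (by norm_num))
  refine ⟨n + 1, pathGraph (n + 1), fun t => {v | |(c v).re - e t| ≤ sinh r * (c v).im},
    fun v => ⌊(log (c v).im - μ) / (2 * r)⌋₊, ⟨pathGraph_isTree n, fun u v huv => ?_, fun v => ?_⟩,
    fun u v huv => ?_, fun t i => indepNum_le fun S hS hi => ?_⟩
  · have h1 := (dist_le_iff hr.le _ _).1 ((h u v).1 huv).2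
    have pu := (c u).im_pos
    have pv := (c v).im_pos
    have h2 : |(c u).re - (c v).re| ≤ sinh r * ((c u).im + (c v).im) := by
      refine abs_le_of_sq_le_sq ?_ (by positivity)
      nlinarith [sq_nonneg ((c u).im - (c v).im), sq_nonneg (sinh r * ((c u).im - (c v).im))]
    rw [abs_le] at h2
    have q1 := mul_pos ps pu
    have q2 := mul_pos ps pv
    rcases le_total ((c u).re - sinh r * (c u).im) ((c v).re - sinh r * (c v).im) with q | q
    · obtain ⟨t, ht⟩ := hsur v
      refine ⟨t, ?_, ?_⟩ <;> simp only [Set.mem_ofPred_eq, ht, abs_le] <;> constructor <;>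
        linarith [h2.1, h2.2]
    · obtain ⟨t, ht⟩ := hsur u
      refine ⟨t, ?_, ?_⟩ <;> simp only [Set.mem_ofPred_eq, ht, abs_le] <;> constructor <;>
        linarith [h2.1, h2.2]
  · refine connected_of_conn (conn_pathGraph fun a ha b hb d h1 h2 => ?_) ?_
    · simp only [Set.mem_ofPred_eq, abs_le] at ha hb ⊢
      have := e.monotone h1
      have := e.monotone h2
      constructor <;> linarith [ha.2, hb.1]
    · obtain ⟨t, ht⟩ := hsur v
      have q1 := mul_pos ps (c v).im_pos
      refine ⟨t, ?_⟩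
      simp only [Set.mem_ofPred_eq, ht, abs_le]
      constructor <;> linarith
  · have h1 := (UpperHalfPlane.dist_log_im_le (c u) (c v)).trans ((h u v).1 huv).2
    rw [Real.dist_eq, abs_le] at h1
    rw [← Nat.floor_add_one (div_nonneg (sub_nonneg.2 (hμ v)) (by linarith))]
    refine Nat.floor_le_floor ?_
    rw [div_add_one (by linarith)]
    exact div_le_div_of_nonneg_right (by linarith [h1.2]) (by linarith)
  · have hb : ∀ v ∈ S, 0 ≤ log (c v).im - μ - 2 * r * i ∧ log (c v).im - μ - 2 * r * i ≤ 2 * r := by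
      intro v hv
      have h1 : ⌊(log (c v).im - μ) / (2 * r)⌋₊ = i := (hS hv).2
      have h2 := Nat.floor_le (div_nonneg (sub_nonneg.2 (hμ v)) (by linarith : (0 : ℝ) ≤ 2 * r))
      have h3 := Nat.lt_floor_add_one ((log (c v).im - μ) / (2 * r))
      rw [h1, le_div_iff₀ (by linarith)] at h2
      rw [h1, div_lt_iff₀ (by linarith)] at h3
      constructor <;> linarith
    have h1 := Finset.card_le_card_of_injOn (s := S)
      (t := (Finset.univ : Finset Prop) ×ˢ Finset.range (⌊2 * r / min r (log 2)⌋₊ + 1))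
      (fun v => ((c v).re ≤ e t, ⌊(log (c v).im - μ - 2 * r * i) / min r (log 2)⌋₊))
      (fun v hv => ?_) (fun u hu v hv huv => ?_)
    · simpa using h1
    · simp only [Finset.coe_product, Finset.coe_univ, Finset.coe_range, Set.mem_prod, Set.mem_univ,
        Set.mem_Iio, true_and]
      exact Nat.lt_succ_of_le
        (Nat.floor_le_floor (div_le_div_of_nonneg_right (hb v hv).2 hp.le))
    · by_contra hne
      refine hi hu hv hne ((h u v).2 ⟨hne, ?_⟩)
      simp only [Prod.mk.injEq, eq_iff_iff] at huv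
      have key : ∀ u ∈ S, ∀ v ∈ S, ⌊(log (c u).im - μ - 2 * r * i) / min r (log 2)⌋₊ =
          ⌊(log (c v).im - μ - 2 * r * i) / min r (log 2)⌋₊ →
          log (c v).im - log (c u).im ≤ min r (log 2) := by
        intro u hu v hv e
        have h2 := Nat.floor_le (div_nonneg (hb u hu).1 hp.le)
        have h3 := Nat.lt_floor_add_one ((log (c v).im - μ - 2 * r * i) / min r (log 2))
        rw [le_div_iff₀ hp, e] at h2
        rw [div_lt_iff₀ hp] at h3
        linarith
      rcases le_total (c u).im (c v).im with q | q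
      · exact close_aux hr q (key u hu v hv huv.2) (hS hu).1 (hS hv).1 huv.1
      · rw [_root_.dist_comm]
        exact close_aux hr q (key v hv u hu huv.2.symm) (hS hv).1 (hS hu).1 huv.1.symm

theorem upper [Finite V] {G : SimpleGraph V} {r : ℝ} (hr : 0 < r) {c : V → UpperHalfPlane}
    (h : IsDiskRep G r c) : (ltreeAlpha G : ℝ) ≤ 6 * r + 6 := by
  have h1 : ltreeAlpha G ≤ 2 * (⌊2 * r / min r (log 2)⌋₊ + 1) := Nat.sInf_le (exists_dec hr h)
  have hl := log_two_gt_d9
  have hp : 0 < min r (log 2) := lt_min hr (by linarith)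
  have h2 : (⌊2 * r / min r (log 2)⌋₊ : ℝ) ≤ 3 * r + 2 := by
    refine (Nat.floor_le (by positivity)).trans ?_
    rw [div_le_iff₀ hp]
    rcases le_total r (log 2) with q | q
    · rw [min_eq_left q]; nlinarith
    · rw [min_eq_right q]; nlinarith
  have h3 : (ltreeAlpha G : ℝ) ≤ 2 * (⌊2 * r / min r (log 2)⌋₊ + 1) := by exact_mod_cast h1
  linarith

end Pool.Agent.P.MP_49eb30_co
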